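import Mathlib
import Pool.Agent.H71M.Main

/-!
# A general bound for sum-free sets with an even least element
-/

open Finset
open scoped Pointwise

namespace BA12

open MinEven

/-- The difference set of a sum-free set is small. -/
theorem card_diff_le (S : Finset ℤ) (p M : ℤ) (hp : 0 < p)
    (hsf : ∀ x ∈ S, ∀ y ∈ S, x + y ∉ S) (hmin : ∀ x ∈ S, p ≤ x)
    (hmax : ∀ x ∈ S, x ≤ M) (hM : 0 ≤ M) (A : Finset ℤ) (hA : A = S.image (fun x => x - p)) :
    ((A + A.image (fun x => -x)).card : ℤ) + 2 * S.card ≤ 2 * M + 1 := by
  classical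
  set P : Finset ℤ := Finset.Icc 1 M \ S with hP
  have hPc : (P.card : ℤ) + S.card = M := by
    have h1 : S ⊆ Finset.Icc 1 M := by
      intro x hx
      rw [Finset.mem_Icc]
      have := hmin x hx
      have := hmax x hx
      omega
    have h2 := Finset.card_sdiff_add_card_eq_card h1
    rw [Int.card_Icc] at h2
    rw [← hP] at h2
    omega
  have hsub : A + A.image (fun x => -x) ⊆ (P ∪ P.image (fun x => -x)) ∪ {0} := by
    intro d hd
    rw [Finset.mem_add] at hd
    obtain ⟨a, ha, b, hb, rfl⟩ := hd
    rw [hA] at ha hb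
    rw [Finset.mem_image] at ha hb
    obtain ⟨x, hx, rfl⟩ := ha
    obtain ⟨b', hb', rfl⟩ := hb
    rw [Finset.mem_image] at hb'
    obtain ⟨y, hy, rfl⟩ := hb'
    have hx1 := hmin x hx
    have hx2 := hmax x hx
    have hy1 := hmin y hy
    have hy2 := hmax y hy
    rw [Finset.mem_union, Finset.mem_union, Finset.mem_singleton]
    rcases lt_trichotomy x y with h | h | h
    · left; right
      rw [Finset.mem_image]
      refine ⟨y - x, ?_, by ring⟩
      rw [hP, Finset.mem_sdiff, Finset.mem_Icc]
      refine ⟨⟨by omega, by omega⟩, ?_⟩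
      intro hS
      apply hsf _ hS x hx
      have : y - x + x = y := by ring
      rw [this]; exact hy
    · right
      rw [h]; ring
    · left; left
      have he : x - p + -(y - p) = x - y := by ring
      rw [he, hP, Finset.mem_sdiff, Finset.mem_Icc]
      refine ⟨⟨by omega, by omega⟩, ?_⟩
      intro hS
      apply hsf _ hS y hy
      have : x - y + y = x := by ring
      rw [this]; exact hx
  have h1 := Finset.card_le_card hsub
  have h2 := Finset.card_union_le (P ∪ P.image (fun x => -x)) {0}
  have h3 := Finset.card_union_le P (P.image (fun x => -x))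
  have h4 : (P.image (fun x => -x)).card ≤ P.card := Finset.card_image_le
  rw [Finset.card_singleton] at h2
  omega

/-- A set of even numbers. -/
theorem even_bound (S : Finset ℤ) (M : ℤ) (hsf : ∀ x ∈ S, ∀ y ∈ S, x + y ∉ S)
    (hmin : ∀ x ∈ S, 0 < x) (hMS : M ∈ S) (hmax : ∀ x ∈ S, x ≤ M) (hev : ∀ x ∈ S, 2 ∣ x) :
    4 * (S.card : ℤ) ≤ M + 2 := by
  classical
  set T : Finset ℤ := S.image (fun x => M - x) with hT
  have hTc : T.card = S.card := Finset.card_image_of_injective _ sub_right_injective
  have hM := hmin M hMS
  have hM2 := hev M hMS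
  have hdisj : Disjoint S T := by
    rw [Finset.disjoint_left]
    intro x hx hxT
    rw [hT, Finset.mem_image] at hxT
    obtain ⟨y, hy, hyx⟩ := hxT
    apply hsf x hx y hy
    have : x + y = M := by omega
    rw [this]; exact hMS
  have h1 := class_card_le (S ∪ T) 0 (M + 1) 0 2 (by norm_num) (by
    intro x hx
    rw [Finset.mem_union] at hx
    rcases hx with hx | hx
    · have := hmin x hx
      have := hmax x hx
      omega
    · rw [hT, Finset.mem_image] at hx
      obtain ⟨y, hy, rfl⟩ := hx
      have := hmin y hy
      have := hmax y hy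
      omega) (by
    intro x hx
    rw [Finset.mem_union] at hx
    rcases hx with hx | hx
    · have := hev x hx
      omega
    · rw [hT, Finset.mem_image] at hx
      obtain ⟨y, hy, rfl⟩ := hx
      have := hev y hy
      omega) (by omega)
  rw [Finset.card_union_of_disjoint hdisj, hTc] at h1
  push_cast at h1
  omega

/-- The general bound. -/
theorem general (S : Finset ℤ) (p M : ℤ) (hp : 0 < p) (hpe : Even p)
    (hsf : ∀ x ∈ S, ∀ y ∈ S, x + y ∉ S) (hpS : p ∈ S) (hmin : ∀ x ∈ S, p ≤ x) (hMS : M ∈ S)
    (hmax : ∀ x ∈ S, x ≤ M) (hM : p < M) :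
    3 * (S.card : ℤ) ≤ M + p + 1 ∨ 5 * (S.card : ℤ) ≤ 2 * M + 4 ∨
      4 * (S.card : ℤ) ≤ M + 2 := by
  classical
  set A : Finset ℤ := S.image (fun x => x - p) with hA
  have hAc : A.card = S.card := Finset.card_image_of_injective _ (sub_left_injective)
  have hk : 0 < S.card := Finset.card_pos.2 ⟨p, hpS⟩
  have h0 : (0 : ℤ) ∈ A := by
    rw [hA, Finset.mem_image]; exact ⟨p, hpS, by ring⟩
  have hl : M - p ∈ A := by
    rw [hA, Finset.mem_image]; exact ⟨M, hMS, rfl⟩
  rcases closure_top_or A (M - p) hl (by omega) with htop | ⟨g, hg, hdvd⟩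
  · have hdiff := card_diff_le S p M hp hsf hmin hmax (by omega) A hA
    set B : Finset ℤ := A.image (fun x => -x) with hB
    have hBc : B.card = S.card := by
      rw [hB, Finset.card_image_of_injective _ neg_injective, hAc]
    have hn : ((M - p).toNat : ℤ) = M - p := Int.toNat_of_nonneg (by omega)
    have hAr : ∀ x ∈ A, 0 ≤ x ∧ x ≤ M - p := by
      intro x hx
      rw [hA, Finset.mem_image] at hx
      obtain ⟨y, hy, rfl⟩ := hx
      have := hmin y hy
      have := hmax y hy
      omega
    have := fls_weak (M - p).toNat (by omega) (kneserFor _ (by omega)) A B h0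
      (by rw [hn]; exact hl) (by rw [hn]; exact hAr) htop
      ⟨-0, by rw [hB, Finset.mem_image]; exact ⟨0, h0, rfl⟩⟩ (by
        intro x hx y hy
        rw [hB, Finset.mem_image] at hx hy
        obtain ⟨x', hx', rfl⟩ := hx
        obtain ⟨y', hy', rfl⟩ := hy
        have := hAr x' hx'
        have := hAr y' hy'
        rw [hn]
        omega)
    rw [hBc, hAc] at this
    rcases this with h | h
    · left; omega
    · right; left; omega
  · by_cases hg2 : g = 2
    · right; right
      subst hg2
      refine even_bound S M hsf (fun x hx => by have := hmin x hx; omega) hMS hmax ?_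
      intro x hx
      have h1 : x - p ∈ A := by
        rw [hA, Finset.mem_image]; exact ⟨x, hx, rfl⟩
      have h2 := hdvd _ h1
      have h3 := hpe.two_dvd
      omega
    · left
      have h1 := class_card_le S p (M + 1) p g (by omega) (by
        intro x hx
        have := hmin x hx
        have := hmax x hx
        omega) (by
        intro x hx
        apply hdvd
        rw [hA, Finset.mem_image]; exact ⟨x, hx, rfl⟩) (by omega)
      have h2 : 3 * ((S.card : ℤ) - 1) ≤ g * ((S.card : ℤ) - 1) :=
        mul_le_mul_of_nonneg_right (by omega) (by omega)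
      have h3 : g * ((S.card : ℤ) - 1) = g * S.card - g := by ring
      omega

end BA12
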