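import Mathlib

/-!
# A verified search for small sum-free sets
-/

namespace BA12

/-- Call by value for the kernel. -/
noncomputable def frc (n : ℕ) (k : ℕ → Bool) : Bool :=
  Nat.rec (k 0) (fun m _ => k (Nat.succ m)) n

theorem frc_eq (n : ℕ) (k : ℕ → Bool) : frc n k = k n := by
  cases n <;> rfl

/-- The search: `r` positions remain, `cur` is the current one, `S` the chosen ones, `F` the
forbidden ones, `c` the number of chosen ones. -/
noncomputable def srch (b : ℕ) : ℕ → ℕ → ℕ → ℕ → ℕ → Bool := fun r =>
  Nat.rec (fun _ _ _ c => Nat.ble c b)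
    (fun r ih cur S F c =>
      cond (Nat.ble (c + Nat.succ r) b) true
        (cond (ih (cur + 1) S F c)
          (cond (Nat.beq (Nat.land (Nat.shiftRight F cur) 1) 1) true
            (frc (Nat.lor S (Nat.shiftLeft 1 cur)) fun S' =>
              frc (Nat.lor F (Nat.shiftLeft S' cur)) fun F' => ih (cur + 1) S' F' (c + 1)))
          false)) r

theorem srch_zero (b cur S F c : ℕ) : srch b 0 cur S F c = Nat.ble c b := rfl

theorem srch_succ (b r cur S F c : ℕ) : srch b (r + 1) cur S F c =
    cond (Nat.ble (c + (r + 1)) b) true
        (cond (srch b r (cur + 1) S F c)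
          (cond (Nat.beq (Nat.land (Nat.shiftRight F cur) 1) 1) true
            (frc (Nat.lor S (Nat.shiftLeft 1 cur)) fun S' =>
              frc (Nat.lor F (Nat.shiftLeft S' cur)) fun F' =>
                srch b r (cur + 1) S' F' (c + 1)))
          false) := rfl

theorem srch_sound (b r : ℕ) : ∀ (cur S F c : ℕ) (T : Finset ℕ),
    (∀ x ∈ T, ∀ y ∈ T, x + y ∉ T) → (∀ x ∈ T, x < cur + r) →
    (∀ i, S.testBit i = true → i ∈ T) → (∀ i, F.testBit i = true → i ∉ T) →
    (T.filter (fun x => x < cur)).card = c → srch b r cur S F c = true → T.card ≤ b := by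
  induction r with
  | zero =>
    intro cur S F c T _ hlt _ _ hc hs
    rw [srch_zero] at hs
    have h1 : T.filter (fun x => x < cur) = T := by
      rw [Finset.filter_eq_self]
      intro x hx
      have := hlt x hx
      omega
    rw [h1] at hc
    have h2 := Nat.le_of_ble_eq_true hs
    omega
  | succ r ih =>
    intro cur S F c T hsf hlt hS hF hc hs
    rw [srch_succ] at hs
    by_cases h1 : Nat.ble (c + (r + 1)) b = true
    · have h2 := Nat.le_of_ble_eq_true h1
      have h3 : T ⊆ T.filter (fun x => x < cur) ∪ Finset.Ico cur (cur + (r + 1)) := by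
        intro x hx
        rw [Finset.mem_union, Finset.mem_filter, Finset.mem_Ico]
        have := hlt x hx
        by_cases hxc : x < cur
        · left; exact ⟨hx, hxc⟩
        · right; omega
      have h4 := Finset.card_le_card h3
      have h5 := Finset.card_union_le (T.filter (fun x => x < cur))
        (Finset.Ico cur (cur + (r + 1)))
      rw [Nat.card_Ico] at h5
      omega
    · rw [Bool.not_eq_true] at h1
      rw [h1, cond_false] at hs
      have h2 : srch b r (cur + 1) S F c = true := by
        by_contra h
        rw [Bool.not_eq_true] at h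
        rw [h, cond_false] at hs
        exact absurd hs (by decide)
      rw [h2, cond_true] at hs
      by_cases hcur : cur ∈ T
      · have h3 : Nat.beq (Nat.land (Nat.shiftRight F cur) 1) 1 = false := by
          by_contra h
          rw [Bool.not_eq_false] at h
          have h4 : (F >>> cur) &&& 1 = 1 := Nat.eq_of_beq_eq_true h
          rw [Nat.and_one_is_mod, Nat.shiftRight_eq_div_pow] at h4
          apply hF cur ?_ hcur
          rw [Nat.testBit_eq_decide_div_mod_eq, h4]
          rfl
        rw [h3, cond_false, frc_eq, frc_eq] at hs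
        have hS' : ∀ i, (Nat.lor S (Nat.shiftLeft 1 cur)).testBit i = true → i ∈ T := by
          intro i hi
          have h4 : (S ||| (1 <<< cur)).testBit i = true := hi
          rw [Nat.testBit_or, Bool.or_eq_true] at h4
          rcases h4 with h4 | h4
          · exact hS i h4
          · rw [Nat.one_shiftLeft, Nat.testBit_two_pow] at h4
            have := of_decide_eq_true h4
            rw [← this]; exact hcur
        refine ih (cur + 1) _ _ (c + 1) T hsf (fun x hx => by have := hlt x hx; omega) hS' ?_ ?_ hs
        · intro i hi
          have h4 : (F ||| ((Nat.lor S (Nat.shiftLeft 1 cur)) <<< cur)).testBit i = true := hi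
          rw [Nat.testBit_or, Bool.or_eq_true] at h4
          rcases h4 with h4 | h4
          · exact hF i h4
          · rw [Nat.testBit_shiftLeft, Bool.and_eq_true] at h4
            have h5 := of_decide_eq_true h4.1
            have h6 := hS' _ h4.2
            intro hiT
            apply hsf cur hcur _ h6
            have : cur + (i - cur) = i := by omega
            rw [this]; exact hiT
        · have h4 : T.filter (fun x => x < cur + 1) = insert cur (T.filter (fun x => x < cur)) := by
            ext x
            rw [Finset.mem_insert, Finset.mem_filter, Finset.mem_filter]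
            constructor
            · rintro ⟨hx, hxc⟩
              by_cases h : x = cur
              · left; exact h
              · right; exact ⟨hx, by omega⟩
            · rintro (h | ⟨hx, hxc⟩)
              · rw [h]; exact ⟨hcur, by omega⟩
              · exact ⟨hx, by omega⟩
          rw [h4, Finset.card_insert_of_notMem (by rw [Finset.mem_filter]; omega), hc]
      · refine ih (cur + 1) S F c T hsf (fun x hx => by have := hlt x hx; omega) hS hF ?_ h2
        rw [← hc]
        congr 1
        ext x
        rw [Finset.mem_filter, Finset.mem_filter]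
        constructor
        · rintro ⟨hx, hxc⟩
          refine ⟨hx, ?_⟩
          have : x ≠ cur := by
            rintro rfl
            exact hcur hx
          omega
        · rintro ⟨hx, hxc⟩
          exact ⟨hx, by omega⟩

/-- The bound from the search. -/
theorem srch_bound (p r N b : ℕ) (hp : 0 < p) (hN : p + 1 + r = N + 1)
    (h : srch b r (p + 1) (2 ^ p) (2 ^ (2 * p)) 1 = true)
    (T : Finset ℕ) (hT : T ⊆ Finset.Icc 1 N) (hsf : ∀ x ∈ T, ∀ y ∈ T, x + y ∉ T)
    (hmin : IsLeast (T : Set ℕ) p) : T.card ≤ b := by
  have hpT : p ∈ T := hmin.1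
  refine srch_sound b r (p + 1) (2 ^ p) (2 ^ (2 * p)) 1 T hsf ?_ ?_ ?_ ?_ h
  · intro x hx
    have := hT hx
    rw [Finset.mem_Icc] at this
    omega
  · intro i hi
    rw [Nat.testBit_two_pow] at hi
    have := of_decide_eq_true hi
    rw [← this]; exact hpT
  · intro i hi
    rw [Nat.testBit_two_pow] at hi
    have := of_decide_eq_true hi
    rw [← this, two_mul]
    exact hsf p hpT p hpT
  · have : T.filter (fun x => x < p + 1) = {p} := by
      ext x
      rw [Finset.mem_filter, Finset.mem_singleton]
      constructor
      · rintro ⟨hx, hxc⟩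
        have := hmin.2 (show x ∈ (T : Set ℕ) from hx)
        omega
      · rintro rfl
        exact ⟨hpT, by omega⟩
    rw [this, Finset.card_singleton]

theorem s_2_11 : srch 5 9 3 (2 ^ 2) (2 ^ (2 * 2)) 1 = true := by decide +kernel
theorem s_2_13 : srch 6 11 3 (2 ^ 2) (2 ^ (2 * 2)) 1 = true := by decide +kernel
theorem s_4_21 : srch 8 17 5 (2 ^ 4) (2 ^ (2 * 4)) 1 = true := by decide +kernel
theorem s_4_23 : srch 9 19 5 (2 ^ 4) (2 ^ (2 * 4)) 1 = true := by decide +kernel
theorem s_6_33 : srch 13 27 7 (2 ^ 6) (2 ^ (2 * 6)) 1 = true := by decide +kernel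
theorem s_8_43 : srch 17 35 9 (2 ^ 8) (2 ^ (2 * 8)) 1 = true := by decide +kernel

end BA12
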