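import Mathlib
import Pool.Agent.BA12.General
import Pool.Agent.BA12.Search

/-!
# When the bound `(n - p) / 2 + 1` is attained
-/

open Finset

namespace BA12

open MinEven

/-- transfer of the general bound to sets of naturals -/
theorem general_nat (n p : ℕ) (hp : 0 < p) (hpe : Even p) (S : Finset ℕ)
    (hS : S ⊆ Finset.Icc 1 n) (hsf : ∀ x ∈ S, ∀ y ∈ S, x + y ∉ S)
    (hmin : IsLeast (S : Set ℕ) p) : ∃ M : ℕ, M ≤ n ∧ M ∈ S ∧ (∀ x ∈ S, x ≤ M) ∧
    (M < 5 * p → S.card ≤ 2 * p) ∧
    (5 * p ≤ M → 3 * S.card ≤ M + p + 1 ∨ 5 * S.card ≤ 2 * M + 4 ∨ 4 * S.card ≤ M + 2) := by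
  classical
  have hpS : p ∈ S := hmin.1
  obtain ⟨M, hM, hMmax⟩ := exists_max_image S (fun x => x) ⟨p, hpS⟩
  have hMn : M ≤ n := by
    have := hS hM
    rw [Finset.mem_Icc] at this
    exact this.2
  have hmaxS : ∀ x ∈ S, x ≤ M := hMmax
  set T : Finset ℤ := S.image (fun x : ℕ => (x : ℤ)) with hT
  have hTc : T.card = S.card := card_image_of_injective _ Nat.cast_injective
  have hmem : ∀ x : ℕ, (x : ℤ) ∈ T ↔ x ∈ S := by
    intro x
    rw [hT, mem_image]
    constructor
    · rintro ⟨y, hy, hyx⟩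
      have : y = x := by exact_mod_cast hyx
      rw [← this]; exact hy
    · intro h; exact ⟨x, h, rfl⟩
  have hTsf : ∀ x ∈ T, ∀ y ∈ T, x + y ∉ T := by
    intro x hx y hy
    rw [hT, mem_image] at hx hy
    obtain ⟨x', hx', rfl⟩ := hx
    obtain ⟨y', hy', rfl⟩ := hy
    have h1 := hsf x' hx' y' hy'
    intro h
    apply h1
    rw [← hmem]
    push_cast
    exact h
  have hTmin : ∀ x ∈ T, (p : ℤ) ≤ x := by
    intro x hx
    rw [hT, mem_image] at hx
    obtain ⟨x', hx', rfl⟩ := hx
    have := hmin.2 (show x' ∈ (S : Set ℕ) from hx')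
    exact_mod_cast this
  have hTmax : ∀ x ∈ T, x ≤ (M : ℤ) := by
    intro x hx
    rw [hT, mem_image] at hx
    obtain ⟨x', hx', rfl⟩ := hx
    have := hmaxS x' hx'
    exact_mod_cast this
  have hpe' : Even (p : ℤ) := by exact_mod_cast hpe
  refine ⟨M, hMn, hM, hmaxS, ?_, ?_⟩
  · intro h5
    have := upper_small T p M (by omega) hTsf ((hmem p).2 hpS) hTmin hTmax (by omega)
    rw [hTc] at this
    omega
  · intro h5
    have := general T p M (by omega) hpe' hTsf ((hmem p).2 hpS) hTmin ((hmem M).2 hM) hTmax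
      (by omega)
    rw [hTc] at this
    rcases this with h | h | h
    · left; omega
    · right; left; omega
    · right; right; omega

/-- The bound is not attained away from the exceptional pairs. -/
theorem card_le_half (n p : ℕ) (hp : 0 < p) (hpe : Even p) (hn : 5 * p ≤ n)
    (hex : ¬ (p = 2 ∧ (n = 11 ∨ n = 13))) (S : Finset ℕ)
    (hS : S ⊆ Finset.Icc 1 n) (hsf : ∀ x ∈ S, ∀ y ∈ S, x + y ∉ S)
    (hmin : IsLeast (S : Set ℕ) p) : S.card ≤ (n - p) / 2 := by
  obtain ⟨t, ht⟩ := hpe
  by_cases h1 : n = 5 * p + 1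
  · by_cases hp6 : 6 ≤ p
    · have := upper_final n p hp ⟨t, ht⟩ (by omega) S hS hsf hmin
      omega
    · have hp4 : p = 4 := by omega
      subst hp4
      have hn21 : n = 21 := by omega
      subst hn21
      have := srch_bound 4 17 21 8 (by norm_num) (by norm_num) s_4_21 S hS hsf hmin
      omega
  by_cases h3 : n = 5 * p + 3
  · by_cases hp10 : 10 ≤ p
    · have := upper_final n p hp ⟨t, ht⟩ (by omega) S hS hsf hmin
      omega
    · have hp468 : p = 4 ∨ p = 6 ∨ p = 8 := by omega
      rcases hp468 with hp4 | hp4 | hp4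
      · subst hp4
        have hn21 : n = 23 := by omega
        subst hn21
        have := srch_bound 4 19 23 9 (by norm_num) (by norm_num) s_4_23 S hS hsf hmin
        omega
      · subst hp4
        have hn21 : n = 33 := by omega
        subst hn21
        have := srch_bound 6 27 33 13 (by norm_num) (by norm_num) s_6_33 S hS hsf hmin
        omega
      · subst hp4
        have hn21 : n = 43 := by omega
        subst hn21
        have := srch_bound 8 35 43 17 (by norm_num) (by norm_num) s_8_43 S hS hsf hmin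
        omega
  obtain ⟨M, hMn, hMS, hmax, hs, hg⟩ := general_nat n p hp ⟨t, ht⟩ S hS hsf hmin
  by_cases h5 : M < 5 * p
  · have := hs h5
    omega
  · have := hg (by omega)
    omega

end BA12
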